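import Pool.Agent.Helper96.GB.Frames

/-!
# The space of automorphisms of `ℂ²` is a Baire space; neighbourhoods
-/

set_option autoImplicit false

open Set Filter Metric Topology

namespace Pool.Agent.Helper96.GB

/-- Limits of holomorphic maps, uniform on compact sets, are holomorphic. -/
theorem differentiable_of_tendsto {f : ℕ → C(E, E)} {g : C(E, E)}
    (hf : ∀ n, Differentiable ℂ (f n)) (h : Tendsto f atTop (𝓝 g)) : Differentiable ℂ g := by
  rw [ContinuousMap.tendsto_iff_forall_isCompact_tendstoUniformlyOn] at h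
  have hC : ∀ R : ℝ, UniformCauchySeqOn (fun n x => fderiv ℂ (f n) x) atTop (ball (0 : E) R) := by
    intro R
    rw [Metric.uniformCauchySeqOn_iff]
    intro ε hε
    have h1 := h (closedBall 0 (R + 1)) (isCompact_closedBall _ _)
    rw [Metric.tendstoUniformlyOn_iff] at h1
    obtain ⟨N, hN⟩ := eventually_atTop.1 (h1 (ε / 8) (by positivity))
    refine ⟨N, fun m hm n hn x hx => ?_⟩
    rw [mem_ball_zero_iff] at hx
    have hd : Differentiable ℂ (fun y => f m y - f n y) := (hf m).sub (hf n)
    have hsm : ∀ y ∈ closedBall (0 : E) (R + 1), ‖f m y - f n y‖ ≤ ε / 4 := by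
      intro y hy
      have e1 := hN m hm y hy
      have e2 := hN n hn y hy
      rw [← dist_eq_norm]
      calc dist (f m y) (f n y) ≤ dist (f m y) (g y) + dist (g y) (f n y) := dist_triangle _ _ _
        _ ≤ ε / 4 := by rw [dist_comm (f m y)]; linarith
    have hmaps : MapsTo (fun y => f m y - f n y) (ball x 1)
        (closedBall ((fun y => f m y - f n y) x) (ε / 2)) := by
      intro y hy
      rw [mem_closedBall, dist_eq_norm]
      have hy' : y ∈ closedBall (0 : E) (R + 1) := by
        rw [mem_closedBall_zero_iff]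
        rw [mem_ball, dist_eq_norm] at hy
        calc ‖y‖ = ‖(y - x) + x‖ := by rw [sub_add_cancel]
          _ ≤ ‖y - x‖ + ‖x‖ := norm_add_le _ _
          _ ≤ R + 1 := by linarith
      have hx' : x ∈ closedBall (0 : E) (R + 1) := by
        rw [mem_closedBall_zero_iff]; linarith
      calc ‖(f m y - f n y) - (f m x - f n x)‖ ≤ ‖f m y - f n y‖ + ‖f m x - f n x‖ :=
            norm_sub_le _ _
        _ ≤ ε / 2 := by have := hsm y hy'; have := hsm x hx'; linarith
    have key := Complex.norm_fderiv_le_div_of_mapsTo_ball hd.differentiableOn hmaps one_pos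
    have e3 : fderiv ℂ (fun y => f m y - f n y) x = fderiv ℂ (f m) x - fderiv ℂ (f n) x :=
      fderiv_fun_sub (hf m x) (hf n x)
    rw [e3] at key
    rw [dist_eq_norm]
    linarith
  have hlim : ∀ x : E, ∃ L : E →L[ℂ] E, Tendsto (fun n => fderiv ℂ (f n) x) atTop (𝓝 L) := by
    intro x
    have hx : x ∈ ball (0 : E) (‖x‖ + 1) := by
      rw [mem_ball_zero_iff]; linarith
    exact cauchySeq_tendsto_of_complete ((hC (‖x‖ + 1)).cauchy_map hx)
  choose G hG using hlim
  intro x
  have hx : x ∈ ball (0 : E) (‖x‖ + 1) := by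
    rw [mem_ball_zero_iff]; linarith
  have hU : TendstoUniformlyOn (fun n x => fderiv ℂ (f n) x) G atTop (ball (0 : E) (‖x‖ + 1)) :=
    (hC (‖x‖ + 1)).tendstoUniformlyOn_of_tendsto fun y _ => hG y
  have hpt : ∀ y ∈ ball (0 : E) (‖x‖ + 1), Tendsto (fun n => f n y) atTop (𝓝 (g y)) := by
    intro y _
    exact (h {y} isCompact_singleton).tendsto_at (mem_singleton y)
  exact (hasFDerivAt_of_tendstoUniformlyOn isOpen_ball hU
    (fun n y _ => (hf n y).hasFDerivAt) hpt hx).differentiableAt

theorem pair_injective : Function.Injective Aut2.pair := by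
  intro A B h
  have h1 : (A.pair.1 : E → E) = B.pair.1 := by rw [h]
  have h2 : A.F = B.F := Equiv.ext fun x => congrFun h1 x
  cases A
  cases B
  simp only at h2
  subst h2
  rfl

theorem isClosed_range_pair : IsClosed (range Aut2.pair) := by
  apply IsSeqClosed.isClosed
  intro u p hu hp
  choose A hA using hu
  have h1 : Tendsto (fun n => (A n).pair.1) atTop (𝓝 p.1) := by
    simp only [hA]
    exact (continuous_fst.tendsto p).comp hp
  have h2 : Tendsto (fun n => (A n).pair.2) atTop (𝓝 p.2) := by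
    simp only [hA]
    exact (continuous_snd.tendsto p).comp hp
  have d1 : Differentiable ℂ p.1 := differentiable_of_tendsto (fun n => (A n).diff) h1
  have d2 : Differentiable ℂ p.2 := differentiable_of_tendsto (fun n => (A n).diff_symm) h2
  have e1 : ∀ x, Tendsto (fun n => (A n).pair.1 x) atTop (𝓝 (p.1 x)) := fun x =>
    ((continuous_eval_const (F := C(E, E)) x).tendsto p.1).comp h1
  have e2 : ∀ x, Tendsto (fun n => (A n).pair.2 x) atTop (𝓝 (p.2 x)) := fun x =>
    ((continuous_eval_const (F := C(E, E)) x).tendsto p.2).comp h2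
  have c1 : ∀ x, p.1 (p.2 x) = x := by
    intro x
    have t1 : Tendsto (fun n => (A n).pair.1 ((A n).pair.2 x)) atTop (𝓝 (p.1 (p.2 x))) :=
      ((ContinuousEval.continuous_eval (F := C(E, E)) (X := E) (Y := E)).tendsto
        (p.1, p.2 x)).comp (h1.prodMk_nhds (e2 x))
    have t2 : (fun n => (A n).pair.1 ((A n).pair.2 x)) = fun _ => x := by
      funext n
      exact (A n).F.apply_symm_apply x
    rw [t2] at t1
    exact tendsto_nhds_unique t1 tendsto_const_nhds |>.symm ▸ rfl
  have c2 : ∀ x, p.2 (p.1 x) = x := by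
    intro x
    have t1 : Tendsto (fun n => (A n).pair.2 ((A n).pair.1 x)) atTop (𝓝 (p.2 (p.1 x))) :=
      ((ContinuousEval.continuous_eval (F := C(E, E)) (X := E) (Y := E)).tendsto
        (p.2, p.1 x)).comp (h2.prodMk_nhds (e1 x))
    have t2 : (fun n => (A n).pair.2 ((A n).pair.1 x)) = fun _ => x := by
      funext n
      exact (A n).F.symm_apply_apply x
    rw [t2] at t1
    exact tendsto_nhds_unique t1 tendsto_const_nhds |>.symm ▸ rfl
  refine ⟨⟨⟨p.1, p.2, c2, c1⟩, d1, d2⟩, ?_⟩
  rfl

theorem isClosedEmbedding_pair : IsClosedEmbedding Aut2.pair :=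
  ⟨⟨⟨rfl⟩, pair_injective⟩, isClosed_range_pair⟩

/-- The space of automorphisms is a Baire space. -/
theorem s_Baire : S_Baire := by
  have h := isClosedEmbedding_pair.IsCompletelyPseudoMetrizableSpace
  exact BaireSpace.of_completelyPseudoMetrizable

/-- Neighbourhoods contain `C^0` neighbourhoods. -/
theorem s_Nbhd : S_Nbhd := by
  intro A V hV hA
  by_contra hcon
  push Not at hcon
  have hB : ∀ n : ℕ, ∃ B : Aut2, (∀ x, ‖x‖ ≤ (n + 1 : ℝ) → ‖B.F x - A.F x‖ < 1 / (n + 1 : ℝ) ∧
      ‖B.F.symm x - A.F.symm x‖ < 1 / (n + 1 : ℝ)) ∧ B ∉ V := fun n =>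
    hcon (n + 1 : ℝ) (1 / (n + 1 : ℝ)) (by positivity) (by positivity)
  choose B hB hBV using hB
  have hK : ∀ (K : Set E), IsCompact K → ∀ ε : ℝ, 0 < ε → ∀ᶠ n : ℕ in atTop, ∀ x ∈ K,
      ‖(B n).F x - A.F x‖ < ε ∧ ‖(B n).F.symm x - A.F.symm x‖ < ε := by
    intro K hK ε hε
    obtain ⟨R, hR⟩ := hK.isBounded.exists_norm_le
    obtain ⟨N, hN⟩ := exists_nat_gt R
    obtain ⟨N', hN'⟩ := exists_nat_one_div_lt hε
    filter_upwards [eventually_ge_atTop (max N N')] with n hn x hx
    have hn1 : (N : ℝ) ≤ n := by exact_mod_cast (le_max_left _ _).trans hn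
    have hn2 : (N' : ℝ) ≤ n := by exact_mod_cast (le_max_right _ _).trans hn
    have h1 := hB n x ((hR x hx).trans (by linarith))
    have h2 : 1 / ((n : ℝ) + 1) ≤ 1 / ((N' : ℝ) + 1) := by
      apply one_div_le_one_div_of_le (by positivity) (by linarith)
    exact ⟨h1.1.trans (h2.trans_lt hN'), h1.2.trans (h2.trans_lt hN')⟩
  have ht : Tendsto B atTop (𝓝 A) := by
    rw [isClosedEmbedding_pair.isInducing.tendsto_nhds_iff]
    apply Tendsto.prodMk_nhds
    · rw [ContinuousMap.tendsto_iff_forall_isCompact_tendstoUniformlyOn]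
      intro K hKc
      rw [Metric.tendstoUniformlyOn_iff]
      intro ε hε
      filter_upwards [hK K hKc ε hε] with n hn x hx
      rw [dist_comm, dist_eq_norm]
      exact (hn x hx).1
    · rw [ContinuousMap.tendsto_iff_forall_isCompact_tendstoUniformlyOn]
      intro K hKc
      rw [Metric.tendstoUniformlyOn_iff]
      intro ε hε
      filter_upwards [hK K hKc ε hε] with n hn x hx
      rw [dist_comm, dist_eq_norm]
      exact (hn x hx).2
  obtain ⟨n, hn⟩ := (ht.eventually (hV.mem_nhds hA)).exists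
  exact hBV n hn

end Pool.Agent.Helper96.GB
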