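import Pool.Agent.Helper96.GB.Frames2

/-!
# Entire functions: Baire space, neighbourhoods; the Hénon maps
-/

set_option autoImplicit false

open Set Filter Metric Topology

namespace Pool.Agent.Helper96.GB

theorem isClosed_ent : IsClosed {f : C(ℂ, ℂ) | Differentiable ℂ f} := by
  apply IsSeqClosed.isClosed
  intro u p hu hp
  rw [ContinuousMap.tendsto_iff_tendstoLocallyUniformly] at hp
  have h : DifferentiableOn ℂ p univ :=
    (tendstoLocallyUniformlyOn_univ.2 hp).differentiableOn
      (Eventually.of_forall fun n => (hu n).differentiableOn) isOpen_univ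
  exact differentiableOn_univ.1 h

theorem s_BaireE : S_BaireE := by
  have h0 : IsClosedEmbedding (Subtype.val : Ent → C(ℂ, ℂ)) := isClosed_ent.isClosedEmbedding_subtypeVal
  have h := h0.IsCompletelyPseudoMetrizableSpace
  exact BaireSpace.of_completelyPseudoMetrizable

theorem s_NbhdE : S_NbhdE := by
  intro f V hV hf
  by_contra hcon
  push Not at hcon
  have hB : ∀ n : ℕ, ∃ g : Ent, (∀ z, ‖z‖ ≤ (n + 1 : ℝ) → ‖g.1 z - f.1 z‖ < 1 / (n + 1 : ℝ)) ∧
      g ∉ V := fun n => hcon (n + 1 : ℝ) (1 / (n + 1 : ℝ)) (by positivity) (by positivity)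
  choose B hB hBV using hB
  have ht : Tendsto B atTop (𝓝 f) := by
    rw [tendsto_subtype_rng, ContinuousMap.tendsto_iff_forall_isCompact_tendstoUniformlyOn]
    intro K hK
    rw [Metric.tendstoUniformlyOn_iff]
    intro ε hε
    obtain ⟨R, hR⟩ := hK.isBounded.exists_norm_le
    obtain ⟨N, hN⟩ := exists_nat_gt R
    obtain ⟨N', hN'⟩ := exists_nat_one_div_lt hε
    filter_upwards [eventually_ge_atTop (max N N')] with n hn x hx
    have hn1 : (N : ℝ) ≤ n := by exact_mod_cast (le_max_left _ _).trans hn
    have hn2 : (N' : ℝ) ≤ n := by exact_mod_cast (le_max_right _ _).trans hn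
    have h1 := hB n x ((hR x hx).trans (by linarith))
    have h2 : 1 / ((n : ℝ) + 1) ≤ 1 / ((N' : ℝ) + 1) := by
      apply one_div_le_one_div_of_le (by positivity) (by linarith)
    rw [dist_comm, dist_eq_norm]
    exact h1.trans (h2.trans_lt hN')
  obtain ⟨n, hn⟩ := (ht.eventually (hV.mem_nhds hf)).exists
  exact hBV n hn

/-- The Hénon map as an automorphism. -/
noncomputable def henAut (δ : ℂ) (hδ : δ ≠ 0) (f : Ent) : Aut2 where
  F :=
    { toFun := hmap δ f.1
      invFun := fun x => (x.2, (f.1 x.2 - x.1) / δ)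
      left_inv := by
        intro x
        show (x.1, (f.1 x.1 - (f.1 x.1 - δ * x.2)) / δ) = x
        rw [sub_sub_cancel, mul_div_cancel_left₀ _ hδ]
      right_inv := by
        intro x
        show (f.1 x.2 - δ * ((f.1 x.2 - x.1) / δ), x.2) = x
        rw [mul_div_cancel₀ _ hδ, sub_sub_cancel] }
  diff := by
    show Differentiable ℂ (fun x : E => (f.1 x.1 - δ * x.2, x.1))
    exact ((f.2.comp differentiable_fst).sub (differentiable_snd.const_mul δ)).prodMk
      differentiable_fst
  diff_symm := by
    show Differentiable ℂ (fun x : E => (x.2, (f.1 x.2 - x.1) / δ))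
    have h1 : Differentiable ℂ (fun x : E => f.1 x.2) := f.2.comp differentiable_snd
    have h2 : Differentiable ℂ (fun x : E => f.1 x.2 - x.1) := h1.sub differentiable_fst
    have h3 : Differentiable ℂ (fun x : E => (f.1 x.2 - x.1) / δ) := by
      simp only [div_eq_mul_inv]
      exact h2.mul_const _
    exact differentiable_snd.prodMk h3

theorem s_Hen : S_Hen := by
  intro δ hδ
  refine ⟨henAut δ hδ, ?_, fun f x => rfl⟩
  have hev : Continuous (fun p : Ent × ℂ => p.1.1 p.2) := by
    have h1 : Continuous (fun p : C(ℂ, ℂ) × ℂ => p.1 p.2) := ContinuousEval.continuous_eval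
    exact h1.comp ((continuous_subtype_val.comp continuous_fst).prodMk continuous_snd)
  refine continuous_induced_rng.2 (Continuous.prodMk ?_ ?_)
  · apply ContinuousMap.continuous_of_continuous_uncurry
    show Continuous (fun p : Ent × E => (p.1.1 p.2.1 - δ * p.2.2, p.2.1))
    have h1 : Continuous (fun p : Ent × E => p.1.1 p.2.1) :=
      hev.comp (continuous_fst.prodMk (continuous_fst.comp continuous_snd))
    fun_prop
  · apply ContinuousMap.continuous_of_continuous_uncurry
    show Continuous (fun p : Ent × E => (p.2.2, (p.1.1 p.2.2 - p.2.1) / δ))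
    have h1 : Continuous (fun p : Ent × E => p.1.1 p.2.2) :=
      hev.comp (continuous_fst.prodMk (continuous_snd.comp continuous_snd))
    exact (continuous_snd.comp continuous_snd).prodMk
      ((h1.sub (continuous_fst.comp continuous_snd)).div_const δ)

end Pool.Agent.Helper96.GB
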