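import Pool.Agent.Helper89.GB.Baire
import Pool.Agent.Helper78.GB.Osh

/-!
# Compositions with almost trivial overshears
-/

set_option autoImplicit false

open Set Filter Metric Topology

namespace Pool.Agent.Helper96.GB

theorem osh_move (α β : E →L[ℂ] ℂ) (e : E) (χ φ : ℂ → ℂ) (P ε : ℝ) (hP : 0 ≤ P) (hε : 0 < ε)
    (hε1 : ε ≤ 1) (x : E) (hx : ‖x‖ ≤ P) (h1 : ‖χ (α x)‖ ≤ ε) (h2 : ‖φ (α x)‖ ≤ 3 * ε) :
    ‖osh α β e χ φ x - x‖ ≤ ε * (2 * ‖β‖ * P + 3) * ‖e‖ := by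
  unfold osh
  rw [add_sub_cancel_left, norm_smul]
  refine mul_le_mul_of_nonneg_right ?_ (norm_nonneg _)
  have h3 : ‖Complex.exp (χ (α x)) - 1‖ ≤ 2 * ε := by
    have := Complex.norm_exp_sub_one_le (h1.trans hε1)
    linarith
  have h4 : ‖β x‖ ≤ ‖β‖ * P := (β.le_opNorm x).trans (mul_le_mul_of_nonneg_left hx (norm_nonneg _))
  calc ‖(Complex.exp (χ (α x)) - 1) * β x + φ (α x)‖
      ≤ ‖(Complex.exp (χ (α x)) - 1) * β x‖ + ‖φ (α x)‖ := norm_add_le _ _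
    _ ≤ 2 * ε * (‖β‖ * P) + 3 * ε := by
        rw [norm_mul]
        exact add_le_add (mul_le_mul h3 h4 (norm_nonneg _) (by positivity)) h2
    _ = ε * (2 * ‖β‖ * P + 3) := by ring

theorem osh_near (α β : E →L[ℂ] ℂ) (e : E) (P δ : ℝ) (hP : 0 ≤ P) (hδ : 0 < δ) :
    ∃ ε : ℝ, 0 < ε ∧ ∀ r : ℝ, ‖α‖ * P ≤ r → ∀ ε' ≤ ε, 0 < ε' → ∀ χ φ : ℂ → ℂ,
      (∀ z, ‖z‖ ≤ r → ‖χ z‖ < ε' ∧ ‖φ z‖ < ε') → ∀ x, ‖x‖ ≤ P →
      ‖osh α β e χ φ x - x‖ < δ ∧
      ‖osh α β e (fun z => -χ z) (fun z => -(Complex.exp (-χ z) * φ z)) x - x‖ < δ := by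
  have hC : 0 < (2 * ‖β‖ * P + 3) * (‖e‖ + 1) := by positivity
  refine ⟨min 1 (δ / ((2 * ‖β‖ * P + 3) * (‖e‖ + 1))), by positivity,
    fun r hr ε' hε' h0 χ φ h x hx => ?_⟩
  have hε1 : ε' ≤ 1 := hε'.trans (min_le_left _ _)
  have hε2 : ε' * ((2 * ‖β‖ * P + 3) * (‖e‖ + 1)) ≤ δ :=
    (le_div_iff₀ hC).1 (hε'.trans (min_le_right _ _))
  have hz : ‖α x‖ ≤ r :=
    ((α.le_opNorm x).trans (mul_le_mul_of_nonneg_left hx (norm_nonneg _))).trans hr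
  obtain ⟨h1, h2⟩ := h _ hz
  have hlt : ε' * (2 * ‖β‖ * P + 3) * ‖e‖ < δ := by
    have : 0 < ε' * (2 * ‖β‖ * P + 3) := by positivity
    nlinarith
  constructor
  · refine (osh_move α β e χ φ P ε' hP h0 hε1 x hx h1.le ?_).trans_lt hlt
    linarith
  · refine (osh_move α β e _ _ P ε' hP h0 hε1 x hx ?_ ?_).trans_lt hlt
    · simpa using h1.le
    · have h3 : ‖Complex.exp (-χ (α x)) - 1‖ ≤ 2 * ‖-χ (α x)‖ :=
        Complex.norm_exp_sub_one_le (by rw [norm_neg]; linarith)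
      rw [norm_neg] at h3
      have h4 : ‖Complex.exp (-χ (α x))‖ ≤ 3 := by
        calc ‖Complex.exp (-χ (α x))‖ = ‖(Complex.exp (-χ (α x)) - 1) + 1‖ := by
              rw [sub_add_cancel]
          _ ≤ ‖Complex.exp (-χ (α x)) - 1‖ + ‖(1 : ℂ)‖ := norm_add_le _ _
          _ ≤ 3 := by rw [norm_one]; linarith
      show ‖-(Complex.exp (-χ (α x)) * φ (α x))‖ ≤ 3 * ε'
      rw [norm_neg, norm_mul]
      exact mul_le_mul h4 h2.le (norm_nonneg _) (by norm_num)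

theorem s_Sand : S_Sand := by
  intro A V hV hA α β α' β' e e' hα hβ hα' hβ'
  obtain ⟨R₀, ε₀, hR₀, hε₀, hN⟩ := s_Nbhd A V hV hA
  have hcF : Continuous A.F := A.diff.continuous
  have hcG : Continuous A.F.symm := A.diff_symm.continuous
  have hcomp : IsCompact (closedBall (0 : E) (R₀ + 1)) := isCompact_closedBall _ _
  obtain ⟨M₁, hM₁⟩ := hcomp.exists_bound_of_continuousOn hcF.continuousOn
  obtain ⟨M₂, hM₂⟩ := hcomp.exists_bound_of_continuousOn hcG.continuousOn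
  obtain ⟨δ₁, hδ₁, hU₁⟩ := Metric.uniformContinuousOn_iff.1
    (hcomp.uniformContinuousOn_of_continuous hcF.continuousOn) (ε₀ / 2) (by linarith)
  obtain ⟨δ₂, hδ₂, hU₂⟩ := Metric.uniformContinuousOn_iff.1
    (hcomp.uniformContinuousOn_of_continuous hcG.continuousOn) (ε₀ / 2) (by linarith)
  set P : ℝ := |M₁| + |M₂| + R₀ + 1 with hPdef
  have hP : 0 < P := by positivity
  have hP1 : |M₁| ≤ P := by have := abs_nonneg M₂; linarith
  have hP2 : |M₂| ≤ P := by have := abs_nonneg M₁; linarith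
  have hP3 : R₀ ≤ P := by have := abs_nonneg M₁; have := abs_nonneg M₂; linarith
  set δ : ℝ := min (min δ₁ δ₂) (min 1 (ε₀ / 2)) with hδdef
  have hδ : 0 < δ := by positivity
  have hδa : δ ≤ δ₁ := (min_le_left _ _).trans (min_le_left _ _)
  have hδb : δ ≤ δ₂ := (min_le_left _ _).trans (min_le_right _ _)
  have hδc : δ ≤ 1 := (min_le_right _ _).trans (min_le_left _ _)
  have hδd : δ ≤ ε₀ / 2 := (min_le_right _ _).trans (min_le_right _ _)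
  obtain ⟨ε₁, hε₁, hS₁⟩ := osh_near α β e P δ hP.le hδ
  obtain ⟨ε₂, hε₂, hS₂⟩ := osh_near α' β' e' P δ hP.le hδ
  refine ⟨(‖α‖ + ‖α'‖ + 1) * P, by positivity, fun r₁ r₂ hr₁ hr₂ => ⟨min ε₁ ε₂, by positivity,
    fun χ φ χ' φ' hχ hφ hχ' hφ' h h' => ?_⟩⟩
  have hr₁' : ‖α‖ * P ≤ r₁ := by
    refine le_trans ?_ hr₁
    have := mul_nonneg (norm_nonneg α') hP.le
    nlinarith
  have hr₂' : ‖α'‖ * P ≤ r₂ := by
    refine le_trans ?_ hr₂
    have := mul_nonneg (norm_nonneg α) hP.le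
    nlinarith
  have hmin : 0 < min ε₁ ε₂ := by positivity
  have k₁ := hS₁ r₁ hr₁' _ (min_le_left ε₁ ε₂) hmin χ φ h
  have k₂ := hS₂ r₂ hr₂' _ (min_le_right ε₁ ε₂) hmin χ' φ' h'
  obtain ⟨S, hS, hS'⟩ := Pool.Agent.Helper78.GB.s_Osh α β e χ φ hα hβ hχ hφ
  obtain ⟨T, hT, hT'⟩ := Pool.Agent.Helper78.GB.s_Osh α' β' e' χ' φ' hα' hβ' hχ' hφ'
  let B : Aut2 := ⟨(S.F.trans A.F).trans T.F, (T.diff.comp A.diff).comp S.diff,
    (S.diff_symm.comp A.diff_symm).comp T.diff_symm⟩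
  refine ⟨B, hN B fun x hx => ⟨?_, ?_⟩, fun x => ?_⟩
  · have e1 : B.F x = T.F (A.F (S.F x)) := rfl
    rw [e1, hT]
    have m1 : ‖S.F x - x‖ < δ := by
      rw [hS]
      exact (k₁ x (hx.trans hP3)).1
    have hx' : x ∈ closedBall (0 : E) (R₀ + 1) := by
      rw [mem_closedBall_zero_iff]; linarith
    have hSx : S.F x ∈ closedBall (0 : E) (R₀ + 1) := by
      rw [mem_closedBall_zero_iff]
      calc ‖S.F x‖ = ‖(S.F x - x) + x‖ := by rw [sub_add_cancel]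
        _ ≤ ‖S.F x - x‖ + ‖x‖ := norm_add_le _ _
        _ ≤ R₀ + 1 := by linarith
    have m2 : ‖A.F (S.F x) - A.F x‖ < ε₀ / 2 := by
      rw [← dist_eq_norm]
      refine hU₁ _ hSx _ hx' ?_
      rw [dist_eq_norm]
      linarith
    have m3 := (k₂ (A.F (S.F x)) (((hM₁ _ hSx).trans (le_abs_self _)).trans hP1)).1
    calc ‖osh α' β' e' χ' φ' (A.F (S.F x)) - A.F x‖
        = ‖(osh α' β' e' χ' φ' (A.F (S.F x)) - A.F (S.F x)) + (A.F (S.F x) - A.F x)‖ := by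
          rw [sub_add_sub_cancel]
      _ ≤ ‖osh α' β' e' χ' φ' (A.F (S.F x)) - A.F (S.F x)‖ + ‖A.F (S.F x) - A.F x‖ :=
          norm_add_le _ _
      _ < ε₀ := by linarith
  · have e1 : B.F.symm x = S.F.symm (A.F.symm (T.F.symm x)) := rfl
    rw [e1, hS']
    have m1 : ‖T.F.symm x - x‖ < δ := by
      rw [hT']
      exact (k₂ x (hx.trans hP3)).2
    have hx' : x ∈ closedBall (0 : E) (R₀ + 1) := by
      rw [mem_closedBall_zero_iff]; linarith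
    have hTx : T.F.symm x ∈ closedBall (0 : E) (R₀ + 1) := by
      rw [mem_closedBall_zero_iff]
      calc ‖T.F.symm x‖ = ‖(T.F.symm x - x) + x‖ := by rw [sub_add_cancel]
        _ ≤ ‖T.F.symm x - x‖ + ‖x‖ := norm_add_le _ _
        _ ≤ R₀ + 1 := by linarith
    have m2 : ‖A.F.symm (T.F.symm x) - A.F.symm x‖ < ε₀ / 2 := by
      rw [← dist_eq_norm]
      refine hU₂ _ hTx _ hx' ?_
      rw [dist_eq_norm]
      linarith
    have m3 := (k₁ (A.F.symm (T.F.symm x))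
      (((hM₂ _ hTx).trans (le_abs_self _)).trans hP2)).2
    refine lt_of_le_of_lt ?_ (add_lt_add_of_lt_of_le (m3.trans_le hδd) m2.le |>.trans_eq
      (add_halves ε₀))
    rw [← sub_add_sub_cancel _ (A.F.symm (T.F.symm x)) (A.F.symm x)]
    exact norm_add_le _ _
  · show T.F (A.F (S.F x)) = _
    rw [hT, hS]

end Pool.Agent.Helper96.GB
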